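import Mathlib
import Pool.Agent.H855.DP.RankArith

/-!
# Poles and ranks for the products of every variety with all varieties which satisfy the conjecture of
Tate, outside of finitely many exceptional slope vectors

Let `Y` be **any** smooth projective variety over a finitely generated field `k` of characteristic `p`. We
show that for **all** smooth projective varieties `X` over the field of constants of `k`, which satisfy the
strong form of the conjecture of Tate and avoid finitely many exceptional slope vectors, the ranks of the
groups of cycles of `X × Y` modulo homological equivalence are given by a Künneth formula, and that the
order of the pole of the `L`-function of `H^(2 n)(X × Y)` at `s = n + dim k` is this rank for all `n ≤ m`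
**if and only if** the same is true for `Y` and all `n ≤ m`.

Let `K i` (`i` in any set `I`) be CM fields, for instance **all** CM fields, and let `V i` be the space of
the odd rational functions on the complex embeddings of `K i`, a representation of the automorphisms of
`ℂ`. We fix an isomorphism `ν` of the algebraic closure of `ℚ_p` with `ℂ`; it defines a `p`-adic
valuation `v` of `ℂ` with `v p = 1`. The slope vector of a Weil number `π` for `p ^ a` in `K i` is the
function `x φ = 2 v (φ π) - a` on the complex embeddings `φ` of `K i` (`slopeVector`).

A number `ρ` comes from the finite set `Ω` of complex numbers (`From p Ω`) if it is not zero and a power
of it is the product of a power of a conjugate of an element of `Ω`, or of `1`, and of a power of `p`.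

Let `π j` (`j` in a finite set) be Weil numbers for `p ^ a`, any `a > 0`, each in one of the fields `K i`,
and let `X` be a smooth projective geometrically connected variety over the field with `Q = p ^ r`
elements, such that all eigenvalues of Frobenius on the cohomology of `X` are generated by the `π j`: a
power of each of them is a product of powers of conjugates of the `π j` and of `p` (`GeneratedBy`).
**Every smooth projective variety `X` is of this kind if the `K i` are all CM fields** (up to
isomorphism): if `α` is an eigenvalue on `H^b(X)` then a power of `α` is rational, or `α ^ n`, for
suitable `n > 0`, is a Weil number for `Q ^ (b n)` in a CM field, and we can choose the `n = n (α)` such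
that `b n` does not depend on `α`. No independence of the `π j` is supposed. We suppose that `X` satisfies
the strong form of the conjecture of Tate (`StrongTate`): for all `i` the elements of `H^(2 i)(X)` which
Frobenius multiplies by `Q ^ i` are linear combinations of classes of cycles, and Frobenius is semisimple
at `Q ^ i`. This is known for K3 surfaces, for abelian varieties of dimension at most three, for products
of elliptic curves, and for many other varieties; `X` may have Tate classes which are not generated by
divisor classes.

Let `k` be a finitely generated field with the field of constants `F_Q`, `U` a model of `k`, of dimension
`d = dim_a k`, and `Y` a smooth projective geometrically connected variety over `k` with a smooth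
projective model over `U`. Here `H^b(Y)` is the space of the invariants of the geometric fundamental group
of `U` in the cohomology of `Y` over the algebraic closure of `k`, with the Frobenius endomorphism of `F_Q`
(for `k = F_Q` this is the whole cohomology). By the theorem of Deligne the cohomology is a semisimple
representation of the geometric fundamental group, so invariants and coinvariants are the same, and by the
formula of Grothendieck the `L`-function of `H^(2 j)(Y)` over `U` has at `s = j + d` a pole, the order of
which is the multiplicity of the eigenvalue `Q ^ j` of Frobenius on `H^(2 j)(Y)` (on the other cohomology
groups with compact supports the weights are smaller): this is the dimension of `generalized Y Q j`. For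
`X × Y` over `k` the invariants are the tensor product of the cohomology of `X` and of `H^*(Y)`, and the
multiplicity is the dimension of `generalizedP X Y Q n`. So `RankIsPole` and `RankIsPoleP` are the formulas
of Q1 for `Y` and `X × Y`, and `RankIsDim` and `RankIsDimP` say that the rank is the dimension of the space
of Galois invariants.

We suppose that the Frobenius eigenvalues of `Y` come from `Ω` (`EigenvaluesFrom`). **Nothing is supposed
on the cycles on `Y`.** A finite set `Ω` as above exists for every `Y`: take one root of each irreducible
factor of the characteristic polynomials of Frobenius. We suppose that one of `X` and `Y` is tight
(`IsTight`): the only supersingular eigenvalues (`IsSupersingular`: all slopes are equal, that is, a power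
of the number is a power of `p`) are the powers of `Q`. (Over a sufficiently large finite field this means
that there are no supersingular eigenvalues on the cohomology of odd degree. It is true for all
K3 surfaces over sufficiently large finite fields.)

**The theorem: there is a set `E` of at most `|Ω|` pairs `(i, v)`, where `v` is an odd function, not zero,
on the complex embeddings of `K i`, such that for all `a`, all families `π j`, all `Q` and all `X` and `Y`
as above, for which no vector of `E` is a combination of the slope vectors `x j` of the `π j`, the
following holds (`RanksDecoupled`):**

1. the rank of the group of classes of cycles of codimension `n` on `X × Y` is the sum over `i + j = n` of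
   the products of the multiplicity of `Q ^ i` on `H^(2 i)(X)` and the rank of the group of classes of
   cycles of codimension `j` on `Y` (all ranks are cardinal numbers; it is not supposed that they are
   finite);
2. for all `m`, the ranks for `X × Y` are the dimensions of the spaces of Galois invariants for all
   `n ≤ m` if and only if this is true for `Y`;
3. **for all `m`, the ranks for `X × Y` are the orders of the poles for all `n ≤ m` if and only if this is
   true for `Y`.**

The set `E` depends only on `ν`, `Ω` and the fields `K i`. If `Ω` is stable under the automorphisms of `ℂ`
and its elements are nonzero and lie in CM fields or totally real fields (`IsStable`), then moreover
`∑ w i ≤ |Ω|`, the sum over the elements `(i, v)` of `E`; here `w i` is twice a lower bound for the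
dimensions of the nonzero stable subspaces of `V i`, so `w i = [K i : ℚ]` if `V i` is irreducible, and
`w i = 2` is always possible (`IsWeight`, `IsSmall`).

A vector `v` on the embeddings of a field `K` is a combination of the slope vectors (`IsCombination`)
if it is the sum of the images of the `x j` under equivariant maps, that is,
`v φ = ∑ t φ (j, ψ) * x j ψ` with rational numbers `t φ (j, ψ)` which are invariant under the
automorphisms of `ℂ`, odd in `ψ`, and zero if the fields `K` and `L j` are unrelated (there are no
nonzero equivariant maps between their odd functions), where `L j` is the field of `π j`. So if
`K i` is unrelated to all the `L j` the condition on the elements `(i, v)` of `E` is satisfied: apart from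
at most `|Ω|` fields, and the fields related to them, there are **no** exceptional varieties `X`.
(Exceptions are necessary: if `X` is a curve and `Y = X` then the class of the diagonal is not a sum of
classes of products.)

The results of earlier runs on this problem about products are about constant abelian varieties of almost
all slope types of given CM fields, or about K3 surfaces of different heights. Here `X` is an
**arbitrary** variety which satisfies the conjecture of Tate, its Tate classes may be exotic, and only
finitely many slope vectors are excluded, for all fields and all families of Weil numbers together.

The framework: the cohomology groups of `X` and `Y`, with complex coefficients (we choose an isomorphism of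
the algebraic closure of `ℚ_ℓ` with `ℂ`), with the Frobenius endomorphisms, the class of `X` and the
restriction to a point (`VarietyData`), the theorem of Deligne on the absolute values of the eigenvalues
(`IsVariety`), the classes of cycles with rational coefficients, the intersection pairing and its
rational values on the classes of cycles (`CycleData`, `HasCycles`), Poincaré duality for `X`
(`HasDuality`). The cohomology of `X × Y` is the tensor product, by the Künneth formula (`PairH`,
`frobT`); the classes of cycles on `X × Y` are Frobenius invariant and closed under products `x × y` and
under the operation `w ↦ pr_* (w * (x × Y))` of cycles `x` on `X` (`push`, `ProductCycles`,
`IsProductCycles`).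

The proof. For `β` in `Ω` let `g` be the function `σ ↦ v (σ β) - v (conj (σ β))` of the automorphisms `σ` of
`ℂ`, and `M` the rational representation generated by it. Suppose that for some family there is a
relation between the conjugates of the `π j` and a number that comes from `β`. Computing valuations, `g` is
a value `σ ↦ ∑ n (j, ψ) x j (σ ψ)` of the relation map of the family, `n` odd. Compose the orthogonal
projection to the representation generated by `n` with the relation map: this is an equivariant map from
the odd functions of the family to `M` which is not zero, hence not zero on the odd functions of one
of the fields `K i`, and there it is given by a vector `v`: the exceptional vector of `β`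
(`exists_vector`). If `g` is a value of the relation map of **another** family then so are all elements
of `M`, in particular the functions `σ ↦ v (σ φ)`, and choosing the values orthogonal to the relations we
see that `v` is a combination of its slope vectors (`isCombination_of`, `exists_core`). So outside of the
exceptional vectors, if `α β = Q ^ n` for eigenvalues of Frobenius of `X` and `Y`, then `α` and `β` are
supersingular (`no_common`), hence powers of `Q`, and an element `w` of `H^(2 n)(X × Y)` annihilated by a
power of `F - Q ^ n` is in the sum of the `E^i(X) ⊗ H^(2 (n - i))(Y)` (`gen_even`, `gen_comp`), where `E^i`
is the eigenspace for `Q ^ i` in `H^(2 i)`. By Poincaré duality and the semisimplicity the pairing of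
`E^i(X)` and `E^(dim X - i)(X)` is nondegenerate, both spaces are spanned by classes of cycles, and as the
intersection numbers are rational there are a basis `x l` of `E^i(X)` and elements `a l`, classes of
cycles, with `u = ∑ (u . a l) x l` for all `u` in `E^i(X)` (`exists_sys`). Hence the component of `w` in
`H^(2 i)(X) ⊗ H^(2 (n - i))(Y)` is `∑ x l ⊗ pr_* (w * (a l × Y))`, and the (generalised) invariants and
the classes of cycles on `X × Y` are direct sums of the groups for `Y` (`psi`). This proves (1) and the
corresponding formulas for the dimensions; (2) and (3) follow by induction on `n`.
-/

set_option autoImplicit false

namespace Pool.Agent.Results.MP_223b32_ag.PoleOrdersOfProducts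

open NumberField Pool.Agent.H855.CM Pool.Agent.H855.DP

/-- **For every smooth projective variety `Y`, whose Frobenius eigenvalues come from the finite set `Ω`,
and all smooth projective varieties `X` over all finite fields which satisfy the strong form of the
conjecture of Tate and whose Frobenius eigenvalues are generated by Weil numbers in the CM fields `K i`,
outside of a set `E` of at most `|Ω|` exceptional slope vectors: the ranks of the groups of cycles on
`X × Y` are given by the Künneth formula, and they are the orders of the poles (the multiplicities of
`Q ^ n`) in the codimensions up to `m` if and only if this is true for `Y`.** -/
theorem result {p : ℕ} [Fact p.Prime] (ν : PadicAlgCl p ≃+* ℂ) {I : Type}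
    (K : I → Type) [∀ i, Field (K i)] [∀ i, NumberField (K i)] [∀ i, IsCMField (K i)]
    (w : I → ℕ) (hw : ∀ i, IsWeight (K i) (w i)) (Ω : Finset ℂ) :
    ∃ E : Finset (Σ i, ((K i →+* ℂ) → ℝ)), IsSmall w Ω E ∧
      RanksDecoupledOutside ν K Ω E :=
  exists_ranks_decoupled ν K w hw Ω

end Pool.Agent.Results.MP_223b32_ag.PoleOrdersOfProducts
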