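import Pool.Agent.H857.EF.Full
import Pool.Agent.H857.EF.Defs4

/-!
# MP_223b32_ag: poles of the zeta functions of the powers of simple abelian fourfolds over finite
fields, and cycles of codimension two

Let `q = p ^ a` be a prime power, and let `W` be the set of the Weil polynomials of degree eight
relative to `q` with integral Newton polygons (`weilPolynomials p a 4`): monic polynomials `f` with
integral coefficients, constant term `q ^ 4` and roots of absolute value `√q`. It contains the
characteristic polynomials of the Frobenius endomorphisms of all abelian fourfolds over the field with
`q` elements (Weil), which determine them up to isogeny (Tate). If `f` is irreducible, then `A` is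
simple and the algebra of its endomorphisms is commutative.

There are constants `C > 0` and `m > 0` such that for all prime powers `q`:

1. `W` is finite with at least `q ^ 5 / C` elements, and at most `C q ^ (7 / 2)` of them are
   reducible.
2. For every irreducible `f` in `W`, with any Newton polygon, over all extensions of the field with
   `q ^ m` elements:

   * all Tate classes of all codimensions on all powers of `A` are polynomials in the Tate classes
     of codimension one and two (`GeneratedInCodimTwo`);
   * for the powers `B` of `A`, and all abelian varieties isogenous to them, and every `c`, the order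
     of the pole of the zeta function of `B` at `s = c` is the rank of the group of the cycles of
     codimension `c` modulo numerical equivalence, as soon as the Tate classes of codimension two on
     `B` are linear combinations of classes of cycles (`TateFromCodimTwo`);
   * if some Tate class on a power of `A` over some extension is exotic, that is over no extension a
     linear combination of products of divisor classes, then there are exotic Tate classes of
     codimension two on `A` itself, over the field with `q ^ m` elements.

The number `m` is universal.

Idea of the proof. As the Galois group is transitive on the pairs of conjugate roots and the Newton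
polygon is integral, a relation between the roots `α i`, one of each pair, which is not a consequence
of relations between two of them, is of the form `∏ α i ^ (± k) = q ^ c`, and it is unique up to
multiples and relations between two roots. The extension of degree `m` kills the roots of unity in
these relations, so that one may take `k = 1`. Then every monomial in the roots with value `Q ^ i` is
a product of pairs with product `Q` and of quadruples with product `Q ^ 2`, and a Tate class is a sum
of products of the corresponding eigenvectors.

The statements of the steps (`Pool.Agent.H857.EF.Core`, `Core2`, `Core3`) were proved by members of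
the team: helpers 122, 187, 215, 230, 233, 249, 282, 294, 356, 389, 400, 597, 643, 662, 687, 707, 720,
721, 738, 740, 800, 857, 894, 962 and 996.
-/

set_option autoImplicit false

namespace Pool.Agent.Results.MP_223b32_ag.SimpleFourfolds

open Polynomial Pool.Agent.H857.EF Pool.Agent.H857.SX

/-- **Tate classes on the powers of simple abelian fourfolds over finite fields.** -/
theorem result : ∃ C : ℝ, 0 < C ∧ ∃ m : ℕ, 0 < m ∧ ∀ (p : ℕ) [Fact p.Prime] (a : ℕ), 0 < a →
    -- all isogeny classes, and the reducible ones
    ((weilPolynomials p a 4).Finite ∧
      Real.sqrt ((p : ℝ) ^ a) ^ 10 ≤ C * (weilPolynomials p a 4).ncard ∧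
      ({f ∈ weilPolynomials p a 4 | ¬ Irreducible f}.ncard : ℝ) ≤
        C * Real.sqrt ((p : ℝ) ^ a) ^ 7) ∧
    -- the irreducible ones
    ∀ f ∈ weilPolynomials p a 4, Irreducible f →
      ∃ g : ℤ[X], IsPowerPoly f m g ∧ GeneratedInCodimTwo ((p ^ a) ^ m) g ∧
        TateFromCodimTwo ((p ^ a) ^ m) g ∧
        (ExoticOnPower (p ^ a) f → ExoticInCodimTwo ((p ^ a) ^ m) g) := by
  obtain ⟨C, hC, m, hm, h⟩ := main2 all_s4 all_s5b all_s6b all_s9 s13 all_s14 all_s15 all_s16 s17
    Pool.Agent.H643.EF.s18 all_s22i Pool.Agent.H740.EF.s23 Pool.Agent.H643.EF.s24
    Pool.Agent.H962.EF26.s26 Pool.Agent.H962.EF27.s27 s28 all_s29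
    Pool.Agent.H962.EF26.s30 all_s31 all_s32
  refine ⟨C, hC, m, hm, fun p _ a ha => ?_⟩
  simp only [exoticOnPower_iff, exoticInCodimTwo_iff]
  obtain ⟨⟨h1, h2, _, h4⟩, _, _, _, h8⟩ := h p a ha
  exact ⟨⟨h1, h2, h4⟩, h8⟩

end Pool.Agent.Results.MP_223b32_ag.SimpleFourfolds
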