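import Mathlib
import Pool.Agent.H298.Core.NormRoots
import Pool.Graph.R_pool_sql_team_seeded_843ab51a.V1168.BB.Pole
import Pool.Agent.H298.Core.Double

/-!
# The analytic conjecture of Tate for the products of arbitrary varieties over finitely generated
fields with constant abelian varieties whose CM fields have irreducible odd part or primitive core

**In short.** Let `K` be a CM field of degree `2 g`, `K₀` its maximal real subfield and `2 ^ v`, `1
≤ v ≤ g`, the degree of the Galois closure of `K` over the Galois closure of `K₀` (typically `v =
g`). The theorem is for the Weil numbers `π` all powers of which generate `K`, in the following
cases (`FieldCriteria`), among others: **(a) `v > g / 3`; (b) the slopes of `π` have odd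
denominators, for example `π` is ordinary, and `v > g / 4`, or `g` is the product of two prime
numbers and `v > 1`, or `g` is prime, or `K` has few divisors in the sense of `FewDivisors`; (c) the
Galois group of `K₀` is doubly transitive, and `g` is odd, or `g - 1` is a prime number, or at least
`g` is none of the numbers `10, 16, 26, 28, 36, …` (`TwoGraphDegree`); or it is triply transitive,
for example the symmetric group, or the alternating group if `g ≥ 5`, `g ≥ 3`; and no norm of `π` to
an imaginary quadratic field is supersingular** (this is
so if `g` is odd and `π` is ordinary). The general hypothesis (`IsCoreWeil`) is explained below.

**Cores.** Let `X` be the set of the complex embeddings of the CM field `K`, `[K : ℚ] = 2 g`. The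
automorphisms of `ℂ` which map all elements of `X` to themselves or to their complex conjugates are
called sign changes. The first core of `φ : X` consists of the `ψ : X` which are moved by the same
sign changes as `φ`. If one uses all automorphisms which map the elements of the first core to
themselves or to their conjugates, one obtains the second core, inside of the first one, and so on
(`coreOf`). The cores of the same index have the same number `2 c` of elements, `c` divides `g`, and
the smallest such number `c` is the core number of `K`. It satisfies `c ≤ g / v`, and if a prime
number `q` divides the discriminant of `K`, but not the discriminant of the maximal real subfield,
then `q ^ c` divides the discriminant of `K`. `FewDivisors` says that all divisors of `g` which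
satisfy these conditions are one or prime.

**The Weil numbers.** Let `p` be a prime number, `q = p ^ a`, let `K i` (`i` in a finite set) be CM
fields and `π i` Weil numbers for `q` in `K i` such that each power `(π i) ^ n`, `n ≥ 1`, generates
`K i`. By Honda and Tate they correspond to the abelian varieties over the field with `q` elements
which are geometrically simple with commutative endomorphism ring, and to other abelian varieties.
Suppose that for each `K = K i` one of the following conditions holds (`IsCoreWeil`).

* The rational functions on `X` which change their sign under complex conjugation are an irreducible
  representation of the automorphisms of `ℂ` (`OddIrreducible`), for example because the core number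
  of `K` is one.
* There is a core with `c` pairs of embeddings, and `c` is a prime number, or `c = [K : F]` for a
  subfield `F`, not totally real, such that the automorphisms of `ℂ` act doubly transitively on the
  extensions to `K` of an embedding of `F` (`PrimitiveCore`); and there is **no** subfield `F` with
  `[K : F] = c`, not totally real, in which the norm `N` of `π i` is supersingular
  (`SupersingularNorm`; this means that `N ^ 2 / q ^ c` is a root of unity).

The condition on the norms in the second case is necessary and sufficient for the absence of
relations between the conjugates of `π i` (`NormCriteria`), and so of exotic Tate classes on the
powers of its abelian variety; it is satisfied if `c = 2`, if `c` is odd and the slopes of `π i`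
have odd denominators (for example in the ordinary case), and if all subfields `F` with `[K : F] =
c` are totally real. There are no other conditions on `π i`, its slopes, the decomposition of `p` in
`K i`, the degree or the Galois group of `K i`. The fields `K i` are pairwise independent
(`PairwiseIndep`; no condition if there is only one field). Let `f i` be monic polynomials whose
complex roots are conjugates of `π i` (`IsPolyOf`), for instance powers of the characteristic
polynomials of Frobenius.

Let `A` be an abelian variety over the field with `Q = q ^ s` elements which is isogenous to a
product of powers of abelian varieties coming from the field with `q` elements, with characteristic
polynomials `f i`, and let `k` be a field of transcendence degree `d`, finitely generated over the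
field with `Q` elements, which is algebraically closed in `k`. Let `Y` be **any** smooth projective
variety over `k` which is unrelated to the fields `K i` in the following sense (`EdgeUnrelated`):
for all `b`, the poles and zeros of the `L`-function of `H^b(Y)` on the line `Re s = b / 2 + d`, the
boundary of the domain of absolute convergence, are at points `s` such that `Q^s` is unrelated to
the fields `K i`; and on the groups of cycles of `A × Y` modulo homological equivalence the absolute
Frobenius endomorphism of `Y` satisfies nonzero rational polynomials with unrelated roots. Both
conditions are true if the eigenvalues of the Frobenius of the field of constants on the invariants
of the geometric fundamental group of `U` (a model of `k`) in the groups `H^b(Y)` are unrelated to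
the `K i`: the other Frobenius eigenvalues do not matter. (Powers of `Q`, multiplied by roots of
unity, are unrelated to all CM fields.)

A complex number `ρ ≠ 0` is unrelated to the fields `K i` (`Unrelated`) if a function `n` on the
complex embeddings of `K i` with `n (conj φ) = - n φ` which is invariant under all automorphisms of
`ℂ` that fix a power of `ρ` is zero. This is so if for each embedding `ψ` of `K i` some automorphism
which fixes a power of `ρ` is the complex conjugation on `ψ (K i)`: for instance, if a power of `ρ`
lies in a field linearly disjoint from the normal closures of the `K i`, or in a totally real field.
It is also so if the degree of `ρ` is less than twice the dimension of each nonzero space of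
functions `n` stable under all automorphisms of `ℂ` (less than `2 g i` if this representation is
irreducible, as it is for generic CM fields).

Write `A^j` for the cycles of codimension `j` modulo homological equivalence, with rational
coefficients. There are products `D t` of `c t` divisor classes on `A`, finitely many (independent
of `Y`), such that

1. every class in `A^j(A × Y)` is in a unique way the sum of the products of the `D t` with classes
   in `A^(j - c t)(Y)`;
2. the order at `s = j + d` of the `L`-function of `H^(2 j)(A × Y)` is the sum over `t` of the
   orders at `s = j - c t + d` of the `L`-functions of `H^(2 (j - c t))(Y)`;
3. **the analytic conjecture of Tate holds for `A × Y` in all codimensions `j ≤ n` if and only if it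
   holds for `Y` in all codimensions `j ≤ n`, for all `n`.**

So the conjecture for `A × Y` reduces to the one for `Y`. For instance, it holds for `A × Y` in
codimension one if it holds for `Y` in codimension one. The case `d = 0` is the one of varieties `Y`
over the finite field itself. The starting files are about abelian varieties of dimension at most
five over finite fields (and `B ^ n × S`), products of quadratic twists of curves over `ℚ(t_1, ...,
t_m)` and Artin twists over number fields.

The framework: the Chow ring and the ring of correspondences of `A`, with rational coefficients, and
the cohomology of `A` with complex coefficients (we choose an isomorphism of the algebraic closure
of `ℚ_ℓ` with `ℂ`), with the formal properties and the theorems of Tate on divisors and of Kimura on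
the nilpotence of homologically trivial correspondences (`AbelianData`, `IsAbelian`); the groups
`T^(2 j)(Y, j) = A^j(Y)` and `T^(2 j)(A × Y, j) = A^j(A × Y)`, with the products with classes on
`A`, the push-forward from `A × Y` to `Y`, the operation of the correspondences from `A` to `A` and
the absolute Frobenius endomorphism of `Y` (`RelData`, `IsRel`); the absolute Frobenius endomorphism
of `A × Y` acts on cycles of codimension `j` as multiplication by `Q ^ j` (`PureChow`). The local
factors are given by the closed points of `U`, their degrees over the field with `Q` elements and
the spaces `H^b(Y)` with the geometric Frobenius (`LocalData`); on `H^n(A × Y) = ⨁ H^a(A) ⊗ H^(n -
a)(Y)` the Frobenius at a point `v` operates on `H^a(A)` as the `deg v`-th power of the Frobenius of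
`A` (`factorM`; `H^a(A) = (H^1)^a`: `CohData`, `IsCoh`). `IsContinuation` says that `Λ` is a
meromorphic continuation of the Euler product, and the order of the `L`-function at a point is the
one of any such `Λ`; by Grothendieck the `L`-functions are rational functions of `Q^(-s)`.

Part two (`AllCriteria`) contains the criteria: the cases (a), (b) and (c) above (`FieldCriteria`, `DoublyCriteria`),
the facts about the cores (`CoreFacts`) and about the norms (`NormCriteria`), the independence of
the fields, and the condition on the eigenvalues. A prime number `ℓ` separates `K i` from a number
field `F` if `ℓ` divides the discriminant of `K i` but not the one of its maximal real subfield and
not the one of `F`. The fields `K i` are pairwise independent if any two of them are separated by a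
prime number (in one direction). All nonzero elements of `F` are independent of the `K i`, in
particular unrelated to them, if all `K i` are separated from `F`. So for example, if `ℓ` divides
the discriminant of a CM field `K` and `ℓ ^ 2` does not, then the theorem holds for all Weil numbers
`π` in `K` with `ℚ(π ^ n) = K` for all `n`, and all varieties whose eigenvalues lie in fields of a
discriminant prime to `ℓ`.

**What was known.** In the library the reduction from `A × Y` to `Y` is proved for almost all slope
types of CM fields (`AllCMTypesTimes`, whose machine is used); the abelian varieties of prime
dimension are due to Tankeev, Ribet, Lenstra and Zarhin (for finite `k`). New here are the abelian
varieties of all dimensions in the fields with primitive cores, with a condition on the norms which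
is necessary and sufficient, without exceptional types.

**The proof.** It is sufficient to show for each field `K` that the function `w`, the slope of `φ
(π)` minus one half, on the set `X` is not orthogonal to a nonzero space of odd functions which is
stable under the automorphisms of `ℂ`. If the odd functions are irreducible this is clear. Let `r`
be an element of such a space with integral values. By the sign changes one can cut `r` down; this
gives, by induction on the size of the support and on the index of the core, a relation which is
supported in one core. The automorphisms preserving the core act transitively on it. If it has `2 c`
elements with a prime number `c`, then a Sylow subgroup contains an element which has two orbits of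
length `c` on the core, exchanged by the complex conjugation. Since the cyclotomic polynomial is
irreducible, either `w (τ φ) = w (τ φ')` for all `τ` with two different `φ`, `φ'` of the core, or
the sums of `w` over the translates of one orbit are zero, and the orbit consists of the extensions
of an embedding of a subfield `F` with `[K : F] = c`, which is not totally real. In the doubly
transitive case the extensions of an embedding of `F` are one half of the core (a sign change moves
all of them or none), and an average over a stabilizer gives the same two alternatives. In the first
case `φ (π)` and `φ' (π)` have the same absolute values at all places of all conjugates, so they
differ by a root of unity, and a power of `π` does not generate `K`. In the second case the norm of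
`π` in `F` is supersingular. Conversely a supersingular norm is a relation, by Kronecker's theorem.
For the cases (a), (b) and (c) one uses that a sign change is determined by the first cores which it
moves, so that `2 ^ v ≤ 2 ^ (g / c)`, and that for a triply transitive group either the odd
functions are irreducible or the signs are given by a character of the group, so that `K` contains
an imaginary quadratic field. If the group is doubly transitive, let `V` be a space of odd functions
which is stable under the automorphisms, neither zero nor everything. The values of its reproducing
kernel at two embeddings in different pairs are `β` or `-β`, and `β ≠ 0`; the signs form a regular
two-graph on the `g` pairs, with the eigenvalues `r` on `V` and `-s` on the orthogonal space,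
`r s = g - 1`, `(r + s) dim V = g s`. If `g` is odd then `r` or `s` is even, and a descent modulo two
shows that the nonzero functions in one of the two spaces have no zeros; by the maximum principle
this is also true if `r` or `s` is `1` or `-1`. So this space has dimension one, and the signs of its
functions give an imaginary quadratic subfield. If a Weil number `α` of the cohomology of `A` and an unrelated number
`ρ` have the product `Q ^ i`, then `α = Q ^ k` and `α` is a product of pairs of complex conjugate
numbers, so that the eigenvectors of the Frobenius endomorphism of `A` for `α` are products of
divisor classes. The `L`-function of `H^a(A) ⊗ H^b(Y)` is the product of the translates of the one
of `H^b(Y)` by the logarithms of the eigenvalues `α`, and only the points on the boundary of the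
domain of absolute convergence matter. For the cycles one uses the projector given by the divisor
products, and Kimura nilpotence.
-/

set_option autoImplicit false

namespace Pool.Agent.Results.MP_223b32_ag.SmallCoreFields

open NumberField Polynomial Pool.Agent.H977R3.CM Pool.Agent.Y1.CT Pool.Agent.V1168.BB
  Pool.Agent.H298.Core

/-- **The analytic conjecture of Tate for `A × Y` in all codimensions at most `n` is equivalent to the
one for `Y` in all codimensions at most `n`, for the constant abelian varieties `A` whose Weil
numbers lie in independent CM fields with irreducible odd part or primitive core, and all unrelated
varieties `Y` over finitely generated fields.** -/
theorem result :
    (∀ (p : ℕ) [Fact p.Prime] (a : ℕ), 0 < a → ∀ (I : Type) [Fintype I] (K : I → Type)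
      [∀ i, Field (K i)] [∀ i, NumberField (K i)] [∀ i, IsCMField (K i)], PairwiseIndep K →
      ∀ (π : ∀ i, K i) (f : I → ℤ[X]), (∀ i, IsCoreWeil p a (π i)) →
      (∀ i, IsPolyOf (π i) (f i)) → AnalyticTateTimes K (p ^ a) f) ∧ AllCriteria :=
  ⟨fun _ _ _ ha _ _ _ _ _ _ hK _ _ hπ hf =>
    analyticTateTimes (Nat.one_lt_pow ha.ne' (Fact.out : Nat.Prime _).one_lt)
      (norm_roots hπ hf) (noRel_unrelated ha hK hπ hf), allCriteria_hold⟩

end Pool.Agent.Results.MP_223b32_ag.SmallCoreFields
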